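import Mathlib

set_option autoImplicit false

namespace Pool.Agent.Lib.MP_8a180b_co

open Finset

/-- `X` is a Gram matrix of real vectors. -/
def IsGram {ι : Type} (X : ι → ι → ℝ) : Prop :=
  ∃ (κ : Type) (_ : Fintype κ) (ξ : ι → κ → ℝ), ∀ i j, X i j = ∑ k, ξ i k * ξ j k

theorem IsGram.symm {ι : Type} {X : ι → ι → ℝ} (h : IsGram X) (i j : ι) : X i j = X j i := by
  obtain ⟨κ, _, ξ, hξ⟩ := h
  rw [hξ, hξ]
  exact sum_congr rfl (fun k _ => mul_comm _ _)

theorem IsGram.diag_nonneg {ι : Type} {X : ι → ι → ℝ} (h : IsGram X) (i : ι) : 0 ≤ X i i := by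
  obtain ⟨κ, _, ξ, hξ⟩ := h
  rw [hξ]
  exact sum_nonneg (fun k _ => mul_self_nonneg _)

theorem IsGram.comp {ι ι' : Type} {X : ι → ι → ℝ} (h : IsGram X) (f : ι' → ι) :
    IsGram (fun p q => X (f p) (f q)) := by
  obtain ⟨κ, _, ξ, hξ⟩ := h
  exact ⟨κ, inferInstance, fun p => ξ (f p), fun p q => hξ _ _⟩

theorem IsGram.add {ι : Type} {X Y : ι → ι → ℝ} (hX : IsGram X) (hY : IsGram Y) :
    IsGram (fun i j => X i j + Y i j) := by
  obtain ⟨κ, _, ξ, hξ⟩ := hX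
  obtain ⟨κ', _, η, hη⟩ := hY
  refine ⟨κ ⊕ κ', inferInstance, fun i => Sum.elim (ξ i) (η i), fun i j => ?_⟩
  rw [Fintype.sum_sum_type]
  simp only [hξ, hη, Sum.elim_inl, Sum.elim_inr]

theorem IsGram.mul {ι : Type} {X Y : ι → ι → ℝ} (hX : IsGram X) (hY : IsGram Y) :
    IsGram (fun i j => X i j * Y i j) := by
  obtain ⟨κ, _, ξ, hξ⟩ := hX
  obtain ⟨κ', _, η, hη⟩ := hY
  refine ⟨κ × κ', inferInstance, fun i p => ξ i p.1 * η i p.2, fun i j => ?_⟩
  rw [Fintype.sum_prod_type]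
  simp only [hξ, hη, sum_mul_sum]
  exact sum_congr rfl (fun k _ => sum_congr rfl (fun l _ => by ring))

theorem IsGram.smul {ι : Type} {X : ι → ι → ℝ} (hX : IsGram X) (c : ℝ) (hc : 0 ≤ c) :
    IsGram (fun i j => c * X i j) := by
  obtain ⟨κ, _, ξ, hξ⟩ := hX
  refine ⟨κ, inferInstance, fun i k => Real.sqrt c * ξ i k, fun i j => ?_⟩
  simp only [hξ, mul_sum]
  refine sum_congr rfl (fun k _ => ?_)
  have := Real.mul_self_sqrt hc
  calc c * (ξ i k * ξ j k) = (Real.sqrt c * Real.sqrt c) * (ξ i k * ξ j k) := by rw [this]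
    _ = Real.sqrt c * ξ i k * (Real.sqrt c * ξ j k) := by ring

/-- The quadratic form of a Gram matrix is nonnegative. -/
theorem IsGram.quad_nonneg {ι : Type} [Fintype ι] {X : ι → ι → ℝ} (h : IsGram X) (x : ι → ℝ) :
    0 ≤ ∑ i, ∑ j, x i * x j * X i j := by
  obtain ⟨κ, _, ξ, hξ⟩ := h
  have : ∑ i, ∑ j, x i * x j * X i j = ∑ k, (∑ i, x i * ξ i k) * (∑ j, x j * ξ j k) := by
    simp_rw [sum_mul_sum, hξ, mul_sum]
    calc ∑ i, ∑ j, ∑ k, x i * x j * (ξ i k * ξ j k)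
        = ∑ i, ∑ k, ∑ j, x i * x j * (ξ i k * ξ j k) := by
          refine sum_congr rfl (fun i _ => ?_); rw [sum_comm]
      _ = ∑ k, ∑ i, ∑ j, x i * x j * (ξ i k * ξ j k) := by rw [sum_comm]
      _ = ∑ k, ∑ i, ∑ j, x i * ξ i k * (x j * ξ j k) := by
          refine sum_congr rfl (fun k _ => sum_congr rfl (fun i _ => sum_congr rfl (fun j _ => ?_)))
          ring
  rw [this]
  exact sum_nonneg (fun k _ => mul_self_nonneg _)

/-- Contraction of two Gram matrices. -/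
theorem IsGram.contract {ι V : Type} [Fintype V] {N : V → V → ℝ} (hN : IsGram N)
    {X : V × ι → V × ι → ℝ} (hX : IsGram X) :
    IsGram (fun i j => ∑ v, ∑ w, N v w * X (v, i) (w, j)) := by
  obtain ⟨κ, _, ν, hν⟩ := hN
  obtain ⟨κ', _, ξ, hξ⟩ := hX
  refine ⟨κ × κ', inferInstance, fun i p => ∑ v, ν v p.1 * ξ (v, i) p.2, fun i j => ?_⟩
  rw [Fintype.sum_prod_type]
  have h1 : ∀ (k : κ) (l : κ'), (∑ v, ν v k * ξ (v, i) l) * (∑ w, ν w k * ξ (w, j) l) =
      ∑ v, ∑ w, (ν v k * ν w k) * (ξ (v, i) l * ξ (w, j) l) := by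
    intro k l
    rw [sum_mul_sum]
    exact sum_congr rfl (fun v _ => sum_congr rfl (fun w _ => by ring))
  simp only
  simp_rw [h1, hν, hξ, sum_mul_sum]
  -- both sides: sums over v w k l
  calc ∑ v, ∑ w, ∑ k, ∑ l, ν v k * ν w k * (ξ (v, i) l * ξ (w, j) l)
      = ∑ v, ∑ k, ∑ w, ∑ l, ν v k * ν w k * (ξ (v, i) l * ξ (w, j) l) := by
        refine sum_congr rfl (fun v _ => ?_); rw [sum_comm]
    _ = ∑ k, ∑ v, ∑ w, ∑ l, ν v k * ν w k * (ξ (v, i) l * ξ (w, j) l) := by rw [sum_comm]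
    _ = ∑ k, ∑ v, ∑ l, ∑ w, ν v k * ν w k * (ξ (v, i) l * ξ (w, j) l) := by
        refine sum_congr rfl (fun k _ => sum_congr rfl (fun v _ => ?_)); rw [sum_comm]
    _ = ∑ k, ∑ l, ∑ v, ∑ w, ν v k * ν w k * (ξ (v, i) l * ξ (w, j) l) := by
        refine sum_congr rfl (fun k _ => ?_); rw [sum_comm]

theorem IsGram.inner_nonneg {V : Type} [Fintype V] {N X : V → V → ℝ} (hN : IsGram N)
    (hX : IsGram X) : 0 ≤ ∑ v, ∑ w, N v w * X v w := by
  have h1 : IsGram (fun (p q : V × Unit) => X p.1 q.1) := hX.comp (fun p : V × Unit => p.1)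
  have h2 := (hN.contract h1).diag_nonneg ()
  simpa using h2

open scoped MatrixOrder in
/-- A symmetric matrix with nonnegative quadratic form is a Gram matrix. -/
theorem isGram_of_quad {V : Type} [Fintype V] {X : V → V → ℝ} (hs : ∀ i j, X i j = X j i)
    (hq : ∀ x : V → ℝ, 0 ≤ ∑ i, ∑ j, x i * x j * X i j) : IsGram X := by
  classical
  have hpsd : (Matrix.of X).PosSemidef := by
    apply Matrix.PosSemidef.of_dotProduct_mulVec_nonneg
    · ext i j
      simp [Matrix.conjTranspose_apply, hs j i]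
    · intro x
      have := hq x
      simp only [dotProduct, Matrix.mulVec, Matrix.of_apply, star_trivial]
      have h2 : ∑ i, x i * ∑ j, X i j * x j = ∑ i, ∑ j, x i * x j * X i j := by
        refine sum_congr rfl (fun i _ => ?_)
        rw [mul_sum]
        exact sum_congr rfl (fun j _ => by ring)
      rw [h2]; exact this
  obtain ⟨B, hB⟩ := CStarAlgebra.nonneg_iff_eq_star_mul_self.mp hpsd.nonneg
  refine ⟨V, inferInstance, fun i k => B k i, fun i j => ?_⟩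
  have h3 : (Matrix.of X) i j = (star B * B) i j := by rw [hB]
  rw [Matrix.of_apply, Matrix.mul_apply] at h3
  rw [h3]
  refine sum_congr rfl (fun k _ => ?_)
  simp [Matrix.star_apply]

/-- Off-diagonal entries of a Gram matrix are controlled by the diagonal. -/
theorem IsGram.abs_le {ι : Type} {X : ι → ι → ℝ} (h : IsGram X) (i j : ι) :
    |X i j| ≤ (X i i + X j j) / 2 := by
  obtain ⟨κ, _, ξ, hξ⟩ := h
  rw [hξ, hξ, hξ]
  have h1 : 0 ≤ ∑ k, (ξ i k - ξ j k) * (ξ i k - ξ j k) := sum_nonneg (fun k _ => mul_self_nonneg _)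
  have h2 : 0 ≤ ∑ k, (ξ i k + ξ j k) * (ξ i k + ξ j k) := sum_nonneg (fun k _ => mul_self_nonneg _)
  have e1 : ∑ k, (ξ i k - ξ j k) * (ξ i k - ξ j k) =
      ∑ k, ξ i k * ξ i k + ∑ k, ξ j k * ξ j k - 2 * ∑ k, ξ i k * ξ j k := by
    rw [mul_sum, ← sum_add_distrib, ← sum_sub_distrib]
    exact sum_congr rfl (fun k _ => by ring)
  have e2 : ∑ k, (ξ i k + ξ j k) * (ξ i k + ξ j k) =
      ∑ k, ξ i k * ξ i k + ∑ k, ξ j k * ξ j k + 2 * ∑ k, ξ i k * ξ j k := by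
    rw [mul_sum, ← sum_add_distrib, ← sum_add_distrib]
    exact sum_congr rfl (fun k _ => by ring)
  rw [_root_.abs_le]
  constructor <;> linarith

end Pool.Agent.Lib.MP_8a180b_co
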