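import Mathlib
import Pool.Agent.Lib.MP_8a180b_co.Gram

set_option autoImplicit false

namespace Pool.Agent.Lib.MP_8a180b_co

open Finset

/-- Primal feasibility: a Gram matrix with entries `-1` on the edges and diagonal at most `τ`. -/
def Primal {V : Type} (G : SimpleGraph V) (τ : ℝ) : Prop :=
  ∃ W : V → V → ℝ, IsGram W ∧ (∀ i j, G.Adj i j → W i j = -1) ∧ ∀ i, W i i ≤ τ

/-- Dual feasibility. -/
def DualFeas {V : Type} [Fintype V] (G : SimpleGraph V) (Z : V → V → ℝ) : Prop :=
  IsGram Z ∧ (∑ i, Z i i = 1) ∧ ∀ i j, i ≠ j → ¬ G.Adj i j → Z i j = 0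

theorem isClosed_isGram {V : Type} [Fintype V] : IsClosed {W : V → V → ℝ | IsGram W} := by
  have h : {W : V → V → ℝ | IsGram W} =
      (⋂ i, ⋂ j, {W : V → V → ℝ | W i j = W j i}) ∩
      (⋂ x : V → ℝ, {W : V → V → ℝ | 0 ≤ ∑ i, ∑ j, x i * x j * W i j}) := by
    ext W
    simp only [Set.mem_setOf_eq, Set.mem_inter_iff, Set.mem_iInter]
    constructor
    · intro hW
      exact ⟨fun i j => hW.symm i j, fun x => hW.quad_nonneg x⟩
    · rintro ⟨h1, h2⟩
      exact isGram_of_quad h1 h2
  rw [h]
  refine IsClosed.inter ?_ ?_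
  · refine isClosed_iInter (fun i => isClosed_iInter (fun j => ?_))
    exact isClosed_eq (by fun_prop) (by fun_prop)
  · refine isClosed_iInter (fun x => ?_)
    exact isClosed_le (by fun_prop) (by fun_prop)

theorem isCompact_gram_box {V : Type} [Fintype V] (B : ℝ) :
    IsCompact {W : V → V → ℝ | IsGram W ∧ ∀ i, W i i ≤ B} := by
  apply Metric.isCompact_of_isClosed_isBounded
  · have h : {W : V → V → ℝ | IsGram W ∧ ∀ i, W i i ≤ B} =
      {W : V → V → ℝ | IsGram W} ∩ (⋂ i, {W : V → V → ℝ | W i i ≤ B}) := by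
      ext W; simp
    rw [h]
    refine IsClosed.inter isClosed_isGram ?_
    refine isClosed_iInter (fun i => ?_)
    exact isClosed_le (by fun_prop) (by fun_prop)
  · rw [Metric.isBounded_iff_subset_closedBall 0]
    refine ⟨max B 0, fun W hW => ?_⟩
    rw [mem_closedBall_zero_iff, pi_norm_le_iff_of_nonneg (le_max_right _ _)]
    intro i
    rw [pi_norm_le_iff_of_nonneg (le_max_right _ _)]
    intro j
    rw [Real.norm_eq_abs]
    have h1 := hW.1.abs_le i j
    have h2 := hW.2 i
    have h3 := hW.2 j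
    refine le_trans h1 (le_trans ?_ (le_max_left _ _))
    linarith

theorem isCompact_dualFeas {V : Type} [Fintype V] (G : SimpleGraph V) :
    IsCompact {Z : V → V → ℝ | DualFeas G Z} := by
  refine IsCompact.of_isClosed_subset (isCompact_gram_box (V := V) 1) ?_ ?_
  · have h : {Z : V → V → ℝ | DualFeas G Z} =
      {W : V → V → ℝ | IsGram W} ∩ {W : V → V → ℝ | ∑ i, W i i = 1} ∩
        (⋂ i, ⋂ j, {W : V → V → ℝ | i ≠ j → ¬ G.Adj i j → W i j = 0}) := by
      ext W
      simp [DualFeas, and_assoc]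
    rw [h]
    refine IsClosed.inter (IsClosed.inter isClosed_isGram ?_) ?_
    · exact isClosed_eq (by fun_prop) (by fun_prop)
    · refine isClosed_iInter (fun i => isClosed_iInter (fun j => ?_))
      by_cases hij : i ≠ j ∧ ¬ G.Adj i j
      · have : {W : V → V → ℝ | i ≠ j → ¬ G.Adj i j → W i j = 0} = {W | W i j = 0} := by
          ext W
          simp only [Set.mem_setOf_eq]
          constructor
          · intro h; exact h hij.1 hij.2
          · intro h _ _; exact h
        rw [this]
        exact isClosed_eq (by fun_prop) (by fun_prop)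
      · have : {W : V → V → ℝ | i ≠ j → ¬ G.Adj i j → W i j = 0} = Set.univ := by
          ext W
          simp only [Set.mem_setOf_eq, Set.mem_univ, iff_true]
          intro h1 h2
          exact absurd ⟨h1, h2⟩ hij
        rw [this]
        exact isClosed_univ
  · intro Z hZ
    refine ⟨hZ.1, fun i => ?_⟩
    have := hZ.2.1
    rw [← this]
    exact single_le_sum (f := fun i => Z i i) (fun j _ => hZ.1.diag_nonneg j) (mem_univ i)

/-- A single vertex gives a dual feasible point of value `1`. -/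
theorem dualFeas_single {V : Type} [Fintype V] [DecidableEq V] (G : SimpleGraph V) (a : V) :
    DualFeas G (fun i j => if i = a ∧ j = a then 1 else 0) := by
  refine ⟨⟨Unit, inferInstance, fun i _ => if i = a then 1 else 0, fun i j => ?_⟩, ?_, ?_⟩
  · by_cases h1 : i = a <;> by_cases h2 : j = a <;> simp [h1, h2]
  · simp
  · intro i j hij _
    have : ¬ (i = a ∧ j = a) := fun h => hij (h.1.trans h.2.symm)
    simp [this]

theorem exists_dual_max {V : Type} [Fintype V] [Nonempty V] (G : SimpleGraph V) :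
    ∃ Z : V → V → ℝ, DualFeas G Z ∧
      ∀ Z' : V → V → ℝ, DualFeas G Z' → ∑ i, ∑ j, Z' i j ≤ ∑ i, ∑ j, Z i j := by
  classical
  obtain ⟨a⟩ := (inferInstance : Nonempty V)
  have hne : {Z : V → V → ℝ | DualFeas G Z}.Nonempty := ⟨_, dualFeas_single G a⟩
  have hcont : ContinuousOn (fun Z : V → V → ℝ => ∑ i, ∑ j, Z i j)
      {Z : V → V → ℝ | DualFeas G Z} := by
    apply Continuous.continuousOn
    fun_prop
  obtain ⟨Z, hZ, hmax⟩ := (isCompact_dualFeas G).exists_isMaxOn hne hcont
  exact ⟨Z, hZ, fun Z' hZ' => hmax hZ'⟩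

/-- Weak duality. -/
theorem weak_duality {V : Type} [Fintype V] (G : SimpleGraph V) (τ : ℝ) (hP : Primal G τ)
    (Z : V → V → ℝ) (hZ : DualFeas G Z) : ∑ i, ∑ j, Z i j ≤ 1 + τ := by
  classical
  obtain ⟨W, hW, hE, hD⟩ := hP
  have h0 := hZ.1.inner_nonneg hW
  have h1 : ∀ i j, Z i j * W i j ≤ - Z i j + (if i = j then Z i i * (1 + τ) else 0) := by
    intro i j
    by_cases hij : i = j
    · subst hij
      rw [if_pos rfl]
      have := mul_le_mul_of_nonneg_left (hD i) (hZ.1.diag_nonneg i)
      linarith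
    · rw [if_neg hij]
      by_cases ha : G.Adj i j
      · rw [hE i j ha]; linarith
      · rw [hZ.2.2 i j hij ha]; simp
  have h2 : ∑ i, ∑ j, Z i j * W i j ≤ ∑ i, ∑ j, (- Z i j + (if i = j then Z i i * (1 + τ) else 0)) :=
    sum_le_sum (fun i _ => sum_le_sum (fun j _ => h1 i j))
  have h3 : ∑ i, ∑ j, (- Z i j + (if i = j then Z i i * (1 + τ) else 0)) =
      - ∑ i, ∑ j, Z i j + (1 + τ) := by
    simp only [sum_add_distrib, sum_neg_distrib, sum_ite_eq, mem_univ, if_true]
    rw [← sum_mul, hZ.2.1, one_mul]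
  linarith

theorem sq_max_le (a δ : ℝ) : (max (a + δ) 0) ^ 2 ≤ (max a 0) ^ 2 + 2 * (max a 0) * δ + δ ^ 2 := by
  rcases le_total a 0 with ha | ha
  · rw [max_eq_right ha]
    rcases le_total (a + δ) 0 with h | h
    · rw [max_eq_right h]; nlinarith
    · rw [max_eq_left h]; nlinarith
  · rw [max_eq_left ha]
    rcases le_total (a + δ) 0 with h | h
    · rw [max_eq_right h]; nlinarith
    · rw [max_eq_left h]; nlinarith

/-- The penalty function. -/
noncomputable def Phi {V : Type} [Fintype V] (G : SimpleGraph V) (τ : ℝ) (W : V → V → ℝ) : ℝ := by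
  classical
  exact ∑ i, ∑ j, (if G.Adj i j then (W i j + 1) ^ 2 else 0) + ∑ i, (max (W i i - τ) 0) ^ 2

/-- Its (half) derivative at `W` in direction `U`. -/
noncomputable def DPhi {V : Type} [Fintype V] (G : SimpleGraph V) (τ : ℝ) (W U : V → V → ℝ) : ℝ := by
  classical
  exact ∑ i, ∑ j, (if G.Adj i j then (W i j + 1) * U i j else 0) +
    ∑ i, (max (W i i - τ) 0) * U i i

/-- Second order term. -/
noncomputable def QPhi {V : Type} [Fintype V] (G : SimpleGraph V) (U : V → V → ℝ) : ℝ := by
  classical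
  exact ∑ i, ∑ j, (if G.Adj i j then (U i j) ^ 2 else 0) + ∑ i, (U i i) ^ 2

theorem Phi_add_le {V : Type} [Fintype V] (G : SimpleGraph V) (τ : ℝ) (W U : V → V → ℝ) (ε : ℝ) :
    Phi G τ (fun i j => W i j + ε * U i j) ≤ Phi G τ W + 2 * ε * DPhi G τ W U + ε ^ 2 * QPhi G U := by
  classical
  unfold Phi DPhi QPhi
  have e1 : ∑ i, ∑ j, (if G.Adj i j then (W i j + ε * U i j + 1) ^ 2 else 0) =
      ∑ i, ∑ j, (if G.Adj i j then (W i j + 1) ^ 2 else 0) +
      2 * ε * ∑ i, ∑ j, (if G.Adj i j then (W i j + 1) * U i j else 0) +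
      ε ^ 2 * ∑ i, ∑ j, (if G.Adj i j then (U i j) ^ 2 else 0) := by
    simp only [mul_sum, ← sum_add_distrib]
    refine sum_congr rfl (fun i _ => sum_congr rfl (fun j _ => ?_))
    split_ifs <;> ring
  have e2 : ∑ i, (max (W i i + ε * U i i - τ) 0) ^ 2 ≤ ∑ i, (max (W i i - τ) 0) ^ 2 +
      2 * ε * ∑ i, (max (W i i - τ) 0) * U i i + ε ^ 2 * ∑ i, (U i i) ^ 2 := by
    simp only [mul_sum, ← sum_add_distrib]
    refine sum_le_sum (fun i _ => ?_)
    have := sq_max_le (W i i - τ) (ε * U i i)
    have h2 : W i i + ε * U i i - τ = W i i - τ + ε * U i i := by ring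
    rw [h2]
    nlinarith
  have e1' := e1
  simp only at e1' e2 ⊢
  linarith

theorem QPhi_nonneg {V : Type} [Fintype V] (G : SimpleGraph V) (U : V → V → ℝ) :
    0 ≤ QPhi G U := by
  classical
  unfold QPhi
  apply add_nonneg
  · refine sum_nonneg (fun i _ => sum_nonneg (fun j _ => ?_))
    split_ifs
    · positivity
    · exact le_refl _
  · exact sum_nonneg (fun i _ => sq_nonneg _)

theorem Phi_nonneg {V : Type} [Fintype V] (G : SimpleGraph V) (τ : ℝ) (W : V → V → ℝ) :
    0 ≤ Phi G τ W := by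
  classical
  unfold Phi
  apply add_nonneg
  · refine sum_nonneg (fun i _ => sum_nonneg (fun j _ => ?_))
    split_ifs
    · positivity
    · exact le_refl _
  · exact sum_nonneg (fun i _ => sq_nonneg _)

theorem Phi_continuous {V : Type} [Fintype V] (G : SimpleGraph V) (τ : ℝ) :
    Continuous (fun W : V → V → ℝ => Phi G τ W) := by
  classical
  unfold Phi
  refine Continuous.add ?_ ?_
  · refine continuous_finset_sum _ (fun i _ => continuous_finset_sum _ (fun j _ => ?_))
    split_ifs
    · fun_prop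
    · exact continuous_const
  · refine continuous_finset_sum _ (fun i _ => ?_)
    fun_prop

theorem le_of_eps {a C : ℝ} (hC : 0 ≤ C) (h : ∀ ε : ℝ, 0 < ε → ε ≤ 1 → 0 ≤ 2 * ε * a + ε ^ 2 * C) :
    0 ≤ a := by
  by_contra hcon
  push Not at hcon
  have hε : 0 < min 1 (-a / (C + 1)) := by
    apply lt_min one_pos
    apply div_pos <;> linarith
  have h1 := h _ hε (min_le_left _ _)
  set ε := min 1 (-a / (C + 1)) with hεdef
  have h2 : ε * (C + 1) ≤ -a := by
    have : ε ≤ -a / (C + 1) := min_le_right _ _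
    rwa [le_div_iff₀ (by linarith)] at this
  have h3 : ε * C ≤ -a := by nlinarith
  have h4 : ε ^ 2 * C ≤ ε * (-a) := by
    have := mul_le_mul_of_nonneg_left h3 hε.le
    nlinarith
  nlinarith

/-- Strong duality: a bound on all dual feasible values gives a primal feasible point. -/
theorem strong_duality {V : Type} [Fintype V] [Nonempty V] (G : SimpleGraph V) (τ : ℝ)
    (h : ∀ Z : V → V → ℝ, DualFeas G Z → ∑ i, ∑ j, Z i j ≤ 1 + τ) : Primal G τ := by
  classical
  have hτ : 0 ≤ τ := by
    obtain ⟨a⟩ := (inferInstance : Nonempty V)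
    have h1 := h _ (dualFeas_single G a)
    have h2 : ∑ i, ∑ j, (if i = a ∧ j = a then (1 : ℝ) else 0) = 1 := by
      rw [sum_eq_single a, sum_eq_single a]
      · simp
      · intro b _ hb; simp [hb]
      · intro hb; exact absurd (mem_univ _) hb
      · intro b _ hb; simp [hb]
      · intro hb; exact absurd (mem_univ _) hb
    rw [h2] at h1
    linarith
  have h0gram : IsGram (fun _ _ : V => (0 : ℝ)) :=
    ⟨Unit, inferInstance, fun _ _ => 0, fun i j => by simp⟩
  set P0 := Phi G τ (fun _ _ : V => (0 : ℝ)) with hP0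
  have hP0n : 0 ≤ P0 := Phi_nonneg G τ _
  set B := τ + P0 + 1 with hB
  obtain ⟨W, hWK, hWmin⟩ := (isCompact_gram_box (V := V) B).exists_isMinOn
    ⟨fun _ _ => 0, h0gram, fun i => by linarith⟩ (Phi_continuous G τ).continuousOn
  have hmin0 : Phi G τ W ≤ P0 := hWmin ⟨h0gram, fun i => by linarith⟩
  have hglob : ∀ W' : V → V → ℝ, IsGram W' → Phi G τ W ≤ Phi G τ W' := by
    intro W' hW'
    by_cases hb : ∀ i, W' i i ≤ B
    · exact hWmin ⟨hW', hb⟩
    · push Not at hb
      obtain ⟨i, hi⟩ := hb
      refine hmin0.trans ?_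
      have h1 : (max (W' i i - τ) 0) ^ 2 ≤ Phi G τ W' := by
        unfold Phi
        have h2 : (max (W' i i - τ) 0) ^ 2 ≤ ∑ i, (max (W' i i - τ) 0) ^ 2 :=
          single_le_sum (f := fun i => (max (W' i i - τ) 0) ^ 2) (fun j _ => sq_nonneg _)
            (mem_univ i)
        have h3 : 0 ≤ ∑ i, ∑ j, (if G.Adj i j then (W' i j + 1) ^ 2 else 0) := by
          refine sum_nonneg (fun i _ => sum_nonneg (fun j _ => ?_))
          split_ifs
          · positivity
          · exact le_refl _
        linarith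
      have h4 : P0 + 1 ≤ max (W' i i - τ) 0 := le_trans (by linarith) (le_max_left _ _)
      nlinarith
  have hWg : IsGram W := hWK.1
  -- first order conditions
  have hfirst : ∀ U : V → V → ℝ, IsGram U → 0 ≤ DPhi G τ W U := by
    intro U hU
    apply le_of_eps (QPhi_nonneg G U)
    intro ε hε _
    have h1 := hglob _ (hWg.add (hU.smul ε hε.le))
    have h2 := Phi_add_le G τ W U ε
    linarith
  have hself : DPhi G τ W W ≤ 0 := by
    have : 0 ≤ - DPhi G τ W W := by
      apply le_of_eps (QPhi_nonneg G W)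
      intro ε hε hε1
      have h1 := hglob _ (hWg.smul (1 - ε) (by linarith))
      have h2 := Phi_add_le G τ W W (-ε)
      have h3 : (fun i j => W i j + -ε * W i j) = (fun i j => (1 - ε) * W i j) := by
        ext i j; ring
      rw [h3] at h2
      nlinarith
    linarith
  set y : V → ℝ := fun i => max (W i i - τ) 0 with hy
  have hy0 : ∀ i, 0 ≤ y i := fun i => le_max_right _ _
  set E : V → V → ℝ := fun i j => if G.Adj i j then W i j + 1 else 0 with hE
  set g : V → V → ℝ := fun i j => E i j + (if i = j then y i else 0) with hg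
  have hgE : ∀ U : V → V → ℝ, ∑ i, ∑ j, g i j * U i j = DPhi G τ W U := by
    intro U
    unfold DPhi
    simp only [hg, hE, add_mul, sum_add_distrib, ite_mul, zero_mul, sum_ite_eq, mem_univ, if_true]
    rfl
  have hgsymm : ∀ i j, g i j = g j i := by
    intro i j
    simp only [hg, hE]
    rw [hWg.symm i j]
    by_cases hij : i = j
    · subst hij; rfl
    · have hji : ¬ j = i := fun hh => hij hh.symm
      simp only [hij, hji, if_false, G.adj_comm i j]
  have hgGram : IsGram g := by
    apply isGram_of_quad hgsymm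
    intro x
    have h1 : IsGram (fun i j : V => x i * x j) :=
      ⟨Unit, inferInstance, fun i _ => x i, fun i j => by simp⟩
    have h2 := hfirst _ h1
    rw [← hgE] at h2
    have h3 : ∑ i, ∑ j, x i * x j * g i j = ∑ i, ∑ j, g i j * (x i * x j) :=
      sum_congr rfl (fun i _ => sum_congr rfl (fun j _ => by ring))
    rw [h3]
    exact h2
  -- the key identity
  have hkey : DPhi G τ W W = Phi G τ W + τ * ∑ i, y i - ∑ i, ∑ j, E i j := by
    unfold DPhi Phi
    have e1 : ∑ i, ∑ j, (if G.Adj i j then (W i j + 1) * W i j else 0) =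
        ∑ i, ∑ j, (if G.Adj i j then (W i j + 1) ^ 2 else 0) - ∑ i, ∑ j, E i j := by
      simp only [← sum_sub_distrib]
      refine sum_congr rfl (fun i _ => sum_congr rfl (fun j _ => ?_))
      simp only [hE]
      split_ifs <;> ring
    have e2 : ∑ i, (max (W i i - τ) 0) * W i i =
        ∑ i, (max (W i i - τ) 0) ^ 2 + τ * ∑ i, y i := by
      simp only [mul_sum, ← sum_add_distrib]
      refine sum_congr rfl (fun i _ => ?_)
      simp only [hy]
      rcases le_total (W i i - τ) 0 with h1 | h1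
      · rw [max_eq_right h1]; ring
      · rw [max_eq_left h1]; ring
    rw [e1, e2]
    ring
  have hPhi0 : Phi G τ W = 0 := by
    by_contra hne
    have hpos : 0 < Phi G τ W := lt_of_le_of_ne (Phi_nonneg G τ W) (Ne.symm hne)
    have hsumE : Phi G τ W + τ * ∑ i, y i ≤ ∑ i, ∑ j, E i j := by linarith
    have hY : 0 < ∑ i, y i := by
      by_contra hYn
      have hYz : ∑ i, y i = 0 := le_antisymm (not_lt.1 hYn) (sum_nonneg (fun i _ => hy0 i))
      have hyz : ∀ i, y i = 0 := fun i =>
        (sum_eq_zero_iff_of_nonneg (fun i _ => hy0 i)).1 hYz i (mem_univ i)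
      have hgd : ∀ i, g i i = 0 := by
        intro i
        simp [hg, hE, hyz i]
      have hEz : ∑ i, ∑ j, E i j = 0 := by
        refine sum_eq_zero (fun i _ => sum_eq_zero (fun j _ => ?_))
        have h1 := hgGram.abs_le i j
        rw [hgd i, hgd j] at h1
        have h2 : g i j = 0 := by
          have : |g i j| ≤ 0 := by linarith
          exact abs_nonpos_iff.1 this
        have h3 : g i j = E i j := by
          simp [hg, hyz i]
        rw [← h3]; exact h2
      rw [hEz, hYz] at hsumE
      linarith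
    set Y := ∑ i, y i with hYdef
    have hfeas : DualFeas G (fun i j => Y⁻¹ * g i j) := by
      refine ⟨hgGram.smul _ (inv_nonneg.2 hY.le), ?_, ?_⟩
      · have : ∀ i, g i i = y i := by
          intro i; simp [hg, hE]
        simp only [this, ← mul_sum]
        exact inv_mul_cancel₀ hY.ne'
      · intro i j hij hadj
        simp [hg, hE, hij, hadj]
    have h1 := h _ hfeas
    have h2 : ∑ i, ∑ j, Y⁻¹ * g i j = Y⁻¹ * (∑ i, ∑ j, E i j + Y) := by
      simp only [← mul_sum]
      congr 1
      simp only [hg, sum_add_distrib, sum_ite_eq, mem_univ, if_true]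
      rfl
    rw [h2] at h1
    rw [inv_mul_le_iff₀ hY] at h1
    nlinarith
  -- conclude
  refine ⟨W, hWg, ?_, ?_⟩
  · intro i j hij
    have h1 : (W i j + 1) ^ 2 ≤ Phi G τ W := by
      unfold Phi
      have h2 : (if G.Adj i j then (W i j + 1) ^ 2 else 0) ≤
          ∑ j, (if G.Adj i j then (W i j + 1) ^ 2 else 0) :=
        single_le_sum (f := fun j => (if G.Adj i j then (W i j + 1) ^ 2 else 0))
          (fun j _ => by positivity) (mem_univ j)
      have h3 : ∑ j, (if G.Adj i j then (W i j + 1) ^ 2 else 0) ≤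
          ∑ i, ∑ j, (if G.Adj i j then (W i j + 1) ^ 2 else 0) :=
        single_le_sum (f := fun i => ∑ j, (if G.Adj i j then (W i j + 1) ^ 2 else 0))
          (fun i _ => sum_nonneg (fun j _ => by positivity)) (mem_univ i)
      have h4 : 0 ≤ ∑ i, (max (W i i - τ) 0) ^ 2 := sum_nonneg (fun i _ => sq_nonneg _)
      rw [if_pos hij] at h2
      linarith
    rw [hPhi0] at h1
    have h5 : (W i j + 1) ^ 2 = 0 := le_antisymm h1 (sq_nonneg _)
    have h6 : W i j + 1 = 0 := pow_eq_zero_iff (by norm_num) |>.1 h5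
    linarith
  · intro i
    have h1 : (max (W i i - τ) 0) ^ 2 ≤ Phi G τ W := by
      unfold Phi
      have h2 : (max (W i i - τ) 0) ^ 2 ≤ ∑ i, (max (W i i - τ) 0) ^ 2 :=
        single_le_sum (f := fun i => (max (W i i - τ) 0) ^ 2) (fun j _ => sq_nonneg _)
          (mem_univ i)
      have h3 : 0 ≤ ∑ i, ∑ j, (if G.Adj i j then (W i j + 1) ^ 2 else 0) :=
        sum_nonneg (fun i _ => sum_nonneg (fun j _ => by positivity))
      linarith
    rw [hPhi0] at h1
    have h5 : (max (W i i - τ) 0) ^ 2 = 0 := le_antisymm h1 (sq_nonneg _)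
    have h6 : max (W i i - τ) 0 = 0 := pow_eq_zero_iff (by norm_num) |>.1 h5
    have h7 := le_max_left (W i i - τ) 0
    linarith

end Pool.Agent.Lib.MP_8a180b_co
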