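import Mathlib
import Pool.Agent.Lib.MP_8a180b_co.Duality

set_option autoImplicit false

namespace Pool.Agent.Lib.MP_8a180b_co

open Finset

theorem IsGram.sq_le {ι : Type} {X : ι → ι → ℝ} (h : IsGram X) (i j : ι) :
    (X i j) ^ 2 ≤ X i i * X j j := by
  obtain ⟨κ, _, ξ, hξ⟩ := h
  rw [hξ, hξ, hξ]
  have := sum_mul_sq_le_sq_mul_sq univ (ξ i) (ξ j)
  simpa [sq] using this

theorem IsGram.eq_zero_of_diag {ι : Type} {X : ι → ι → ℝ} (h : IsGram X) {i : ι}
    (hi : X i i = 0) (j : ι) : X i j = 0 := by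
  have := h.sq_le i j
  rw [hi, zero_mul] at this
  exact pow_eq_zero_iff (by norm_num) |>.1 (le_antisymm this (sq_nonneg _))

theorem isGram_vec {ι : Type} (y : ι → ℝ) : IsGram (fun i j => y i * y j) :=
  ⟨Unit, inferInstance, fun i _ => y i, fun i j => by simp⟩

theorem dual_quad_le {V : Type} [Fintype V] (G : SimpleGraph V) (Z : V → V → ℝ)
    (hZ : DualFeas G Z)
    (hmax : ∀ Z' : V → V → ℝ, DualFeas G Z' → ∑ i, ∑ j, Z' i j ≤ ∑ i, ∑ j, Z i j)
    (y : V → ℝ) :
    ∑ i, ∑ j, y i * y j * Z i j ≤ (∑ i, ∑ j, Z i j) * ∑ i, Z i i * (y i) ^ 2 := by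
  have hterm : ∀ i, 0 ≤ Z i i * (y i) ^ 2 := fun i => mul_nonneg (hZ.1.diag_nonneg i) (sq_nonneg _)
  rcases (sum_nonneg (fun i (_ : i ∈ univ) => hterm i)).lt_or_eq with hs | hs
  · set s := ∑ i, Z i i * (y i) ^ 2 with hsdef
    have hfeas : DualFeas G (fun i j => s⁻¹ * (y i * y j * Z i j)) := by
      refine ⟨((isGram_vec y).mul hZ.1).smul _ (inv_nonneg.2 hs.le), ?_, ?_⟩
      · rw [← mul_sum]
        have : ∑ i, y i * y i * Z i i = s := sum_congr rfl (fun i _ => by ring)
        rw [this]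
        exact inv_mul_cancel₀ hs.ne'
      · intro i j hij hadj
        simp [hZ.2.2 i j hij hadj]
    have h1 := hmax _ hfeas
    have h2 : ∑ i, ∑ j, s⁻¹ * (y i * y j * Z i j) = s⁻¹ * ∑ i, ∑ j, y i * y j * Z i j := by
      simp only [mul_sum]
    rw [h2, inv_mul_le_iff₀ hs] at h1
    linarith
  · rw [← hs, mul_zero]
    apply le_of_eq
    refine sum_eq_zero (fun i _ => sum_eq_zero (fun j _ => ?_))
    have hi : Z i i * (y i) ^ 2 = 0 :=
      (sum_eq_zero_iff_of_nonneg (fun i _ => hterm i)).1 hs.symm i (mem_univ i)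
    rcases mul_eq_zero.1 hi with h1 | h1
    · rw [hZ.1.eq_zero_of_diag h1 j, mul_zero]
    · have : y i = 0 := pow_eq_zero_iff (by norm_num) |>.1 h1
      rw [this]; ring

theorem sum_expand {V : Type} [Fintype V] (Z : V → V → ℝ) (x : V → ℝ) (ε : ℝ) :
    ∑ i, ∑ j, (1 + ε * x i) * (1 + ε * x j) * Z i j =
      ∑ i, ∑ j, Z i j + ε * (∑ i, ∑ j, x i * Z i j + ∑ i, ∑ j, x j * Z i j) +
        ε ^ 2 * ∑ i, ∑ j, x i * x j * Z i j := by
  simp only [mul_sum, mul_add, ← sum_add_distrib]
  refine sum_congr rfl (fun i _ => sum_congr rfl (fun j _ => ?_))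
  ring

theorem dual_row {V : Type} [Fintype V] (G : SimpleGraph V) (Z : V → V → ℝ)
    (hZ : DualFeas G Z)
    (hmax : ∀ Z' : V → V → ℝ, DualFeas G Z' → ∑ i, ∑ j, Z' i j ≤ ∑ i, ∑ j, Z i j)
    (a : V) : ∑ j, Z a j = (∑ i, ∑ j, Z i j) * Z a a := by
  classical
  set θ := ∑ i, ∑ j, Z i j with hθ
  have hθ1 : 1 ≤ θ := by
    have h1 := hmax _ (dualFeas_single G a)
    have h2 : ∑ i, ∑ j, (if i = a ∧ j = a then (1 : ℝ) else 0) = 1 := by
      rw [sum_eq_single a, sum_eq_single a]
      · simp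
      · intro b _ hb; simp [hb]
      · intro hb; exact absurd (mem_univ _) hb
      · intro b _ hb; simp [hb]
      · intro hb; exact absurd (mem_univ _) hb
    rw [h2] at h1
    exact h1
  have key : ∀ ε : ℝ, 0 ≤ 2 * ε * (θ * Z a a - ∑ j, Z a j) + ε ^ 2 * ((θ - 1) * Z a a) := by
    intro ε
    set x : V → ℝ := fun i => if i = a then 1 else 0 with hx
    have h1 := dual_quad_le G Z hZ hmax (fun i => 1 + ε * x i)
    rw [sum_expand] at h1
    have e1 : ∑ i, ∑ j, x i * Z i j = ∑ j, Z a j := by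
      rw [sum_eq_single a]
      · simp [hx]
      · intro b _ hb; simp [hx, hb]
      · intro hb; exact absurd (mem_univ _) hb
    have e2 : ∑ i, ∑ j, x j * Z i j = ∑ j, Z a j := by
      rw [sum_comm, sum_eq_single a]
      · simp only [hx, if_true, one_mul]
        exact sum_congr rfl (fun i _ => hZ.1.symm i a)
      · intro b _ hb; simp [hx, hb]
      · intro hb; exact absurd (mem_univ _) hb
    have e3 : ∑ i, ∑ j, x i * x j * Z i j = Z a a := by
      rw [sum_eq_single a, sum_eq_single a]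
      · simp [hx]
      · intro b _ hb; simp [hx, hb]
      · intro hb; exact absurd (mem_univ _) hb
      · intro b _ hb; simp [hx, hb]
      · intro hb; exact absurd (mem_univ _) hb
    have e4 : ∑ i, Z i i * (1 + ε * x i) ^ 2 = 1 + (2 * ε + ε ^ 2) * Z a a := by
      have : ∀ i, Z i i * (1 + ε * x i) ^ 2 = Z i i + (2 * ε + ε ^ 2) * (if i = a then Z i i else 0) := by
        intro i
        simp only [hx]
        split_ifs <;> ring
      simp only [this, sum_add_distrib, hZ.2.1, ← mul_sum, sum_ite_eq', mem_univ, if_true]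
    rw [e1, e2, e3, e4] at h1
    nlinarith
  have hC : 0 ≤ (θ - 1) * Z a a := mul_nonneg (by linarith) (hZ.1.diag_nonneg a)
  have h1 : 0 ≤ θ * Z a a - ∑ j, Z a j := le_of_eps hC (fun ε _ _ => key ε)
  have h2 : 0 ≤ -(θ * Z a a - ∑ j, Z a j) := by
    apply le_of_eps hC
    intro ε _ _
    have := key (-ε)
    nlinarith
  linarith

theorem dual_quad_ge {V : Type} [Fintype V] (G : SimpleGraph V) (Z : V → V → ℝ)
    (hZ : DualFeas G Z)
    (hmax : ∀ Z' : V → V → ℝ, DualFeas G Z' → ∑ i, ∑ j, Z' i j ≤ ∑ i, ∑ j, Z i j)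
    (y : V → ℝ) :
    (∑ i, ∑ j, Z i j) * (∑ i, Z i i * y i) ^ 2 ≤ ∑ i, ∑ j, y i * y j * Z i j := by
  set θ := ∑ i, ∑ j, Z i j with hθ
  set s := ∑ i, Z i i * y i with hs
  have h0 := hZ.1.quad_nonneg (fun i => y i - s)
  have e : ∑ i, ∑ j, (y i - s) * (y j - s) * Z i j =
      ∑ i, ∑ j, y i * y j * Z i j - s * (∑ i, ∑ j, y i * Z i j + ∑ i, ∑ j, y j * Z i j) +
        s ^ 2 * θ := by
    rw [hθ]
    simp only [mul_sum, mul_add, ← sum_add_distrib, ← sum_sub_distrib]
    refine sum_congr rfl (fun i _ => sum_congr rfl (fun j _ => ?_))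
    ring
  have e1 : ∑ i, ∑ j, y i * Z i j = θ * s := by
    rw [hs, mul_sum]
    refine sum_congr rfl (fun i _ => ?_)
    rw [← mul_sum, dual_row G Z hZ hmax i]
    ring
  have e2 : ∑ i, ∑ j, y j * Z i j = θ * s := by
    rw [sum_comm, ← e1]
    exact sum_congr rfl (fun i _ => sum_congr rfl (fun j _ => by rw [hZ.1.symm i j]))
  rw [e, e1, e2] at h0
  nlinarith

theorem IsGram.extend {ι : Type} {Y : ι → ι → ℝ} (h : IsGram Y) :
    IsGram (fun p q : Option ι => match p, q with
      | some i, some j => Y i j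
      | _, _ => 0) := by
  obtain ⟨κ, _, ξ, hξ⟩ := h
  refine ⟨κ, inferInstance, fun p => match p with
    | some i => ξ i
    | none => fun _ => 0, fun p q => ?_⟩
  match p, q with
  | some i, some j => exact hξ i j
  | none, _ => simp
  | some i, none => simp

/-- Adjacency of the levels `0, …, r-1`. -/
def LevelAdj {r : ℕ} (i j : Fin r) : Prop :=
  (i.val = 0 ∧ j.val = 0) ∨ i.val + 1 = j.val ∨ j.val + 1 = i.val

/-- The transfer theorem. `GG` and `HH` are the generalized Mycielskians, described by their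
adjacency. -/
theorem transfer {V V' : Type} [Fintype V] [Fintype V'] (G : SimpleGraph V)
    (H : SimpleGraph V') (r : ℕ) (GG : SimpleGraph (Option (V × Fin r)))
    (HH : SimpleGraph (Option (V' × Fin r)))
    (hGG1 : ∀ v w i j, G.Adj v w → LevelAdj i j → GG.Adj (some (v, i)) (some (w, j)))
    (hGG2 : ∀ v w (i : Fin r), i.val + 1 = r → G.Adj v w → GG.Adj (some (v, i)) none)
    (hHH1 : ∀ v w i j, HH.Adj (some (v, i)) (some (w, j)) → H.Adj v w ∧ LevelAdj i j)
    (hHH2 : ∀ v (i : Fin r), HH.Adj (some (v, i)) none → i.val + 1 = r)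
    (θ : ℝ) (hθ : 1 < θ) (Z : V → V → ℝ) (hZ : DualFeas G Z)
    (hmax : ∀ Z' : V → V → ℝ, DualFeas G Z' → ∑ i, ∑ j, Z' i j ≤ ∑ i, ∑ j, Z i j)
    (hval : ∑ i, ∑ j, Z i j = θ) (hH : Primal H (θ - 1)) (τ' : ℝ) (hX : Primal GG τ') :
    Primal HH τ' := by
  classical
  obtain ⟨W, hW, hWE, hWD⟩ := hH
  obtain ⟨X, hX, hXE, hXD⟩ := hX
  have hτ : 0 < θ - 1 := by linarith
  have hθ0 : 0 < θ := by linarith
  have hXs : IsGram (fun p q : V × Fin r => X (some p) (some q)) := hX.comp _
  set P : Fin r → Fin r → ℝ := fun i j => ∑ v, Z v v * X (some (v, i)) (some (v, j)) with hP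
  set PQ : Fin r → Fin r → ℝ :=
    fun i j => ∑ v, ∑ w, Z v w * X (some (v, i)) (some (w, j)) with hPQ
  set R : Fin r → Fin r → ℝ :=
    fun i j => ∑ v, ∑ w, Z v v * Z w w * X (some (v, i)) (some (w, j)) with hR
  -- N1 = θ D - Z
  have hN1 : IsGram (fun v w => (if v = w then θ * Z v v else 0) - Z v w) := by
    apply isGram_of_quad
    · intro v w
      by_cases hvw : v = w
      · subst hvw; rfl
      · have hwv : ¬ w = v := fun h => hvw h.symm
        simp only [hvw, hwv, if_false]
        rw [hZ.1.symm v w]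
    · intro y
      have h1 := dual_quad_le G Z hZ hmax y
      rw [hval] at h1
      have h2 : ∑ i, ∑ j, y i * y j * ((if i = j then θ * Z i i else 0) - Z i j) =
          θ * ∑ i, Z i i * (y i) ^ 2 - ∑ i, ∑ j, y i * y j * Z i j := by
        simp only [mul_sub, sum_sub_distrib, mul_ite, mul_zero, sum_ite_eq, mem_univ, if_true,
          mul_sum]
        congr 1
        exact sum_congr rfl (fun i _ => by ring)
      rw [h2]
      linarith
  have hN2 : IsGram (fun v w => θ⁻¹ * Z v w - Z v v * Z w w) := by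
    apply isGram_of_quad
    · intro v w
      rw [hZ.1.symm v w]; ring
    · intro y
      have h1 := dual_quad_ge G Z hZ hmax y
      rw [hval] at h1
      have h2 : ∑ i, ∑ j, y i * y j * (θ⁻¹ * Z i j - Z i i * Z j j) =
          θ⁻¹ * ∑ i, ∑ j, y i * y j * Z i j - (∑ i, Z i i * y i) ^ 2 := by
        rw [sq, sum_mul_sum]
        simp only [mul_sum, ← sum_sub_distrib]
        refine sum_congr rfl (fun i _ => sum_congr rfl (fun j _ => ?_))
        ring
      rw [h2]
      have h3 : (∑ i, Z i i * y i) ^ 2 ≤ θ⁻¹ * ∑ i, ∑ j, y i * y j * Z i j := by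
        rw [← div_eq_inv_mul, le_div_iff₀ hθ0]
        linarith
      linarith
  have hA1 := hN1.contract hXs
  have hA2 := hN2.contract hXs
  have hA1eq : ∀ i j, (∑ v, ∑ w, ((if v = w then θ * Z v v else 0) - Z v w) *
      X (some (v, i)) (some (w, j))) = θ * P i j - PQ i j := by
    intro i j
    simp only [sub_mul, sum_sub_distrib, ite_mul, zero_mul, sum_ite_eq, mem_univ, if_true, hP, hPQ,
      mul_sum]
    congr 1
    exact sum_congr rfl (fun v _ => by ring)
  have hA2eq : ∀ i j, (∑ v, ∑ w, (θ⁻¹ * Z v w - Z v v * Z w w) *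
      X (some (v, i)) (some (w, j))) = θ⁻¹ * PQ i j - R i j := by
    intro i j
    simp only [hR, hPQ, mul_sum, ← sum_sub_distrib]
    exact sum_congr rfl (fun v _ => sum_congr rfl (fun w _ => by ring))
  simp only [hA1eq] at hA1
  simp only [hA2eq] at hA2
  -- the matrix `a`
  have ha : IsGram (fun i j : Fin r => ((θ - 1) * θ)⁻¹ * (θ * P i j - PQ i j)) :=
    hA1.smul _ (inv_nonneg.2 (mul_pos hτ hθ0).le)
  have hT1 : IsGram (fun p q : V' × Fin r =>
      ((θ - 1) * θ)⁻¹ * (θ * P p.2 q.2 - PQ p.2 q.2) * W p.1 q.1) :=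
    (ha.comp (fun p : V' × Fin r => p.2)).mul (hW.comp (fun p : V' × Fin r => p.1))
  have hT2 : IsGram (fun p q : V' × Fin r => θ⁻¹ * PQ p.2 q.2 - R p.2 q.2) :=
    hA2.comp (fun p : V' × Fin r => p.2)
  -- the third piece
  set γ : Fin r → ℝ := fun i => ∑ v, Z v v * X (some (v, i)) none with hγ
  have hT3 : IsGram (fun p q : Option (V' × Fin r) => match p, q with
      | some p, some q => R p.2 q.2
      | some p, none => γ p.2
      | none, some q => γ q.2
      | none, none => X none none) := by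
    obtain ⟨κ, _, ξ, hξ⟩ := hX
    refine ⟨κ, inferInstance, fun p => match p with
      | some p => fun k => ∑ v, Z v v * ξ (some (v, p.2)) k
      | none => ξ none, fun p q => ?_⟩
    match p, q with
    | some p, some q =>
      have hexp : ∀ k, (∑ v, Z v v * ξ (some (v, p.2)) k) * (∑ w, Z w w * ξ (some (w, q.2)) k) =
          ∑ v, ∑ w, Z v v * ξ (some (v, p.2)) k * (Z w w * ξ (some (w, q.2)) k) :=
        fun k => sum_mul_sum _ _ _ _
      simp only [hexp]
      simp only [hR, hξ, mul_sum]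
      calc ∑ v, ∑ w, ∑ k, Z v v * Z w w * (ξ (some (v, p.2)) k * ξ (some (w, q.2)) k)
          = ∑ v, ∑ k, ∑ w, Z v v * Z w w * (ξ (some (v, p.2)) k * ξ (some (w, q.2)) k) := by
            refine sum_congr rfl (fun v _ => ?_); rw [sum_comm]
        _ = ∑ k, ∑ v, ∑ w, Z v v * Z w w * (ξ (some (v, p.2)) k * ξ (some (w, q.2)) k) := by
            rw [sum_comm]
        _ = ∑ k, ∑ v, ∑ w, Z v v * ξ (some (v, p.2)) k * (Z w w * ξ (some (w, q.2)) k) := by
            refine sum_congr rfl (fun k _ => sum_congr rfl (fun v _ => sum_congr rfl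
              (fun w _ => ?_)))
            ring
    | some p, none =>
      simp only [hγ, hξ, mul_sum, sum_mul]
      rw [sum_comm]
      exact sum_congr rfl (fun k _ => sum_congr rfl (fun v _ => by ring))
    | none, some q =>
      simp only [hγ, hξ, mul_sum]
      rw [sum_comm]
      exact sum_congr rfl (fun k _ => sum_congr rfl (fun v _ => by ring))
    | none, none => exact hξ none none
  -- the value of PQ - P on adjacent levels
  have hQ : ∀ i j, LevelAdj i j → PQ i j - P i j = -(θ - 1) := by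
    intro i j hij
    have h1 : ∀ v w, Z v w * X (some (v, i)) (some (w, j)) =
        - Z v w + (if v = w then Z v v * X (some (v, i)) (some (v, j)) + Z v v else 0) := by
      intro v w
      by_cases hvw : v = w
      · subst hvw; rw [if_pos rfl]; ring
      · rw [if_neg hvw]
        by_cases hadj : G.Adj v w
        · rw [hXE _ _ (hGG1 v w i j hadj hij)]; ring
        · rw [hZ.2.2 v w hvw hadj]; ring
    have h2 : PQ i j = -∑ v, ∑ w, Z v w + (P i j + ∑ v, Z v v) := by
      show ∑ v, ∑ w, Z v w * X (some (v, i)) (some (w, j)) = _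
      rw [sum_congr rfl (fun v _ => sum_congr rfl (fun w _ => h1 v w))]
      simp only [sum_add_distrib, sum_neg_distrib, sum_ite_eq, mem_univ, if_true]
      rfl
    rw [h2, hval, hZ.2.1]
    ring
  have hγ1 : ∀ i : Fin r, i.val + 1 = r → γ i = -1 := by
    intro i hi
    have h1 : ∀ v, Z v v * X (some (v, i)) none = - Z v v := by
      intro v
      by_cases hv : ∃ w, G.Adj v w
      · obtain ⟨w, hw⟩ := hv
        rw [hXE _ _ (hGG2 v w i hi hw)]; ring
      · have hrow := dual_row G Z hZ hmax v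
        rw [hval] at hrow
        have h2 : ∑ j, Z v j = Z v v := by
          rw [sum_eq_single v]
          · intro w _ hw
            exact hZ.2.2 v w (Ne.symm hw) (fun hadj => hv ⟨w, hadj⟩)
          · intro h; exact absurd (mem_univ _) h
        rw [h2] at hrow
        have h3 : Z v v = 0 := by
          have : (θ - 1) * Z v v = 0 := by linarith
          rcases mul_eq_zero.1 this with h | h
          · linarith
          · exact h
        rw [h3]; ring
    show ∑ v, Z v v * X (some (v, i)) none = -1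
    rw [sum_congr rfl (fun v _ => h1 v), sum_neg_distrib, hZ.2.1]
  refine ⟨_, (hT1.extend.add hT2.extend).add hT3, ?_, ?_⟩
  · intro p q hpq
    match p, q with
    | some (v, i), some (w, j) =>
      obtain ⟨hadj, hlev⟩ := hHH1 v w i j hpq
      simp only
      rw [hWE v w hadj]
      have h1 := hQ i j hlev
      have h2 : P i j = PQ i j + (θ - 1) := by linarith
      rw [h2]
      field_simp
      ring
    | some (v, i), none =>
      simp only
      rw [hγ1 i (hHH2 v i hpq)]
      ring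
    | none, some (v, i) =>
      simp only
      rw [hγ1 i (hHH2 v i hpq.symm)]
      ring
    | none, none => exact absurd hpq (HH.loopless.irrefl _)
  · intro p
    match p with
    | some (v, i) =>
      simp only
      have h1 : ((θ - 1) * θ)⁻¹ * (θ * P i i - PQ i i) * W v v ≤
          ((θ - 1) * θ)⁻¹ * (θ * P i i - PQ i i) * (θ - 1) :=
        mul_le_mul_of_nonneg_left (hWD v) (ha.diag_nonneg i)
      have h2 : ((θ - 1) * θ)⁻¹ * (θ * P i i - PQ i i) * (θ - 1) =
          P i i - θ⁻¹ * PQ i i := by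
        field_simp
      have h3 : P i i ≤ τ' := by
        calc P i i ≤ ∑ v, Z v v * τ' :=
              sum_le_sum (fun v _ => mul_le_mul_of_nonneg_left (hXD _) (hZ.1.diag_nonneg v))
          _ = τ' := by rw [← sum_mul, hZ.2.1, one_mul]
      linarith
    | none =>
      simp only
      have := hXD none
      linarith

end Pool.Agent.Lib.MP_8a180b_co
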